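import Pool.Agent.PCO.StmtsA

/-! PCO, row BXM (helper35) -/

set_option autoImplicit false

open Matrix Filter Topology

namespace Pool.Agent.PCO.H35

open Pool.Agent.PFS Pool.Agent.PFJ Pool.Agent.PCO

variable {n : ℕ}

/-- a unit and an element above its cone -/
theorem add_mem_face {C : Set (V n)} (hp : PCone C) {f y : V n} (hf : f ∈ closure C)
    (hy : y ∈ closure C) {M : ℝ} (hM : 0 < M) (h : M • f - y ∈ closure C) :
    f + y ∈ Face C f := by
  have h1 : (0 : ℝ) < 1 + M := by linarith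
  refine ⟨(1 + M)⁻¹, inv_pos.2 h1, ?_, ?_⟩
  · have h2 : f - (1 + M)⁻¹ • (f + y) = (1 + M)⁻¹ • (M • f - y) := by
      have h3 : f = (1 + M)⁻¹ • ((1 + M) • f) := by
        rw [smul_smul, inv_mul_cancel₀ h1.ne', one_smul]
      nth_rewrite 1 [h3]
      rw [← smul_sub]
      congr 1
      rw [add_smul, one_smul]
      abel
    rw [h2]
    exact hp.cl_smul h (inv_pos.2 h1).le
  · have h2 : f + y - (1 + M)⁻¹ • f = (1 - (1 + M)⁻¹) • f + y := by
      rw [sub_smul, one_smul]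
      abel
    rw [h2]
    have h3 : (1 + M)⁻¹ ≤ 1 := inv_le_one_of_one_le₀ (by linarith)
    exact hp.cl_add (hp.cl_smul hf (by linarith)) hy

/-- units are comparable -/
theorem unit_face {C : Set (V n)} (hp : PCone C) {U : Submodule ℝ (V n)} {f g : V n}
    (hf : Unt C U f) (hg : Unt C U g) : g ∈ Face C f := by
  obtain ⟨M1, hM1, h1⟩ := hf.2.2 g hg.1
  obtain ⟨M2, hM2, h2⟩ := hg.2.2 f hf.1
  refine ⟨min M1⁻¹ M2⁻¹, lt_min (inv_pos.2 hM1) (inv_pos.2 hM2), ?_, ?_⟩
  · have h3 : f - M1⁻¹ • g = M1⁻¹ • (M1 • f - g) := by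
      rw [smul_sub, smul_smul, inv_mul_cancel₀ hM1.ne', one_smul]
    have h4 : f - M1⁻¹ • g ∈ closure C := by
      rw [h3]
      exact hp.cl_smul h1 (inv_pos.2 hM1).le
    have h5 : f - min M1⁻¹ M2⁻¹ • g = (f - M1⁻¹ • g) + (M1⁻¹ - min M1⁻¹ M2⁻¹) • g := by
      rw [sub_smul]
      abel
    rw [h5]
    exact hp.cl_add h4 (hp.cl_smul hg.2.1 (sub_nonneg.2 (min_le_left _ _)))
  · have h3 : g - M2⁻¹ • f = M2⁻¹ • (M2 • g - f) := by
      rw [smul_sub, smul_smul, inv_mul_cancel₀ hM2.ne', one_smul]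
    have h4 : g - M2⁻¹ • f ∈ closure C := by
      rw [h3]
      exact hp.cl_smul h2 (inv_pos.2 hM2).le
    have h5 : g - min M1⁻¹ M2⁻¹ • f = (g - M2⁻¹ • f) + (M2⁻¹ - min M1⁻¹ M2⁻¹) • f := by
      rw [sub_smul]
      abel
    rw [h5]
    exact hp.cl_add h4 (hp.cl_smul hf.2.1 (sub_nonneg.2 (min_le_right _ _)))

/-- the first three claims and the unit of the triangle -/
theorem bxm1 (bf1 : Bf1Stmt) {C : Set (V n)} {Γ : Subgroup (GL (Fin n) ℝ)} {d : ℕ}
    (H : Hyp C Γ d) {U : Submodule ℝ (V n)} {v : V n} (hB : Bx C Γ U v)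
    (hd : Module.finrank ℝ U = d) :
    (∀ f ∈ U, ∀ y ∈ closure C, ∀ M : ℝ, M • f - y ∈ closure C → y ∈ U) ∧
      (∀ f, Unt C U f → Submodule.span ℝ (Face C f) = U) ∧
      (∀ f, Unt C U f → ∀ y, (y ∈ Face C f ↔ Unt C U y)) := by
  have hcc : CC C Γ := H.toCC
  have hp : PCone C := hcc.toPCone
  obtain ⟨-, -, -, -, -, hiff, -, -, -⟩ := bf1 n C Γ hcc H.maxc U v hB
  obtain ⟨e, he, e', he', hpes⟩ := hB.pes
  have hul := hcc.hul
  have hvC : v ∉ C := hul.lamNot v (hpes.2 2)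
  have hsum : e + e' + v ∈ C := by
    have h1 := hpes.1.pos (fun _ => 1) (fun _ => one_pos)
    simp only [one_smul, Fin.sum_univ_three, Matrix.cons_val_zero, Matrix.cons_val_one,
      Matrix.cons_val] at h1
    exact h1
  have hf0 : Unt C U (e + e') := by
    have h1 : (e + e') + (1 : ℝ) • v ∈ C := by rwa [one_smul]
    exact ((hiff _ (U.add_mem he he') 1).1 h1).1
  have hne : e + e' ≠ 0 := by
    intro h0
    rw [h0, zero_add] at hsum
    exact hvC hsum
  obtain ⟨F1, F2, -, -, -, -⟩ := PFB.H69.fce n C hp (e + e') hf0.2.1 hne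
  have hmaxd : Module.finrank ℝ (Submodule.span ℝ (Face C (e + e'))) ≤ d :=
    H.maxd ![e, e', v] hpes
  have hle : U ≤ Submodule.span ℝ (Face C (e + e')) := by
    intro z hz
    obtain ⟨t, ht, htz⟩ := (H76.unf n C hp U _ hf0).2.2.2.2.1 z hz
    have h1 : z = t⁻¹ • ((e + e' + t • z) - (e + e')) := by
      rw [add_sub_cancel_left, smul_smul, inv_mul_cancel₀ ht.ne', one_smul]
    rw [h1]
    exact Submodule.smul_mem _ _ (Submodule.sub_mem _ (Submodule.subset_span htz)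
      (Submodule.subset_span F1))
  have hspan : Submodule.span ℝ (Face C (e + e')) = U := by
    symm
    apply Submodule.eq_of_le_of_finrank_le hle
    rw [hd]
    exact hmaxd
  have h1 : ∀ f ∈ U, ∀ y ∈ closure C, ∀ M : ℝ, M • f - y ∈ closure C → y ∈ U := by
    intro f hf y hy M hM
    obtain ⟨M', hM', h2⟩ := hf0.2.2 (M • f) (U.smul_mem _ hf)
    have h3 : M' • (e + e') - y ∈ closure C := hp.le_trans hM h2
    have h4 := add_mem_face hp hf0.2.1 hy hM' h3
    have h5 : e + e' + y ∈ U := by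
      rw [← hspan]
      exact Submodule.subset_span h4
    have h6 := U.sub_mem h5 hf0.1
    rwa [add_sub_cancel_left] at h6
  have hface : ∀ f, Unt C U f → Face C f = Face C (e + e') := fun f hf =>
    F2 f (unit_face hp hf0 hf)
  refine ⟨h1, fun f hf => by rw [hface f hf, hspan], fun f hf y => ⟨fun hy => ?_, fun hy =>
    unit_face hp hf hy⟩⟩
  have hyU : y ∈ U := by
    rw [← hspan, ← hface f hf]
    exact Submodule.subset_span hy
  obtain ⟨ε, hε, -, h3⟩ := hy
  exact (H76.unf n C hp U _ ((H76.unf n C hp U _ hf).1 ε hε)).2.1 y hyU h3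

theorem bxm (tvx : TvxStmt) (bf1 : Bf1Stmt) : BxmStmt := by
  intro n C Γ d H U v hB hd
  have hcc : CC C Γ := H.toCC
  have hp : PCone C := hcc.toPCone
  obtain ⟨-, -, -, -, hstrict, hiff, -, -, hlast⟩ := bf1 n C Γ hcc H.maxc U v hB
  obtain ⟨h1, h2, h3⟩ := bxm1 bf1 H hB hd
  have hul := hcc.hul
  obtain ⟨e, he, e', he', hpes⟩ := hB.pes
  have hsum : e + e' + v ∈ C := by
    have h1 := hpes.1.pos (fun _ => 1) (fun _ => one_pos)
    simp only [one_smul, Fin.sum_univ_three, Matrix.cons_val_zero, Matrix.cons_val_one,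
      Matrix.cons_val] at h1
    exact h1
  have hf0 : Unt C U (e + e') := by
    have h1 : (e + e') + (1 : ℝ) • v ∈ C := by rwa [one_smul]
    exact ((hiff _ (U.add_mem he he') 1).1 h1).1
  refine ⟨h1, h2, h3, ?_, ?_, ?_, ?_⟩
  · intro a ha y hy M hM
    obtain ⟨c, -, hc⟩ := hlast a ha y (h1 a ha.1 y hy M hM) hy M hM
    exact ⟨c, hc⟩
  · have := tvx n C Γ hcc 3 (le_refl 3) H.maxc ![e, e', v] hpes 2
    simpa using this
  · intro f hf z hz hfz
    have hfz0 : e + e' + z ∉ C := by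
      intro h
      apply hfz
      obtain ⟨M, hM, hMf⟩ := hf.2.2 (e + e') hf0.1
      have h4 : (M + 1) • (f + z) - (e + e' + z) ∈ closure C := by
        have h5 : (M + 1) • (f + z) - (e + e' + z) = (M • f - (e + e')) + (f + M • z) := by
          rw [add_smul, one_smul, smul_add]
          abel
        rw [h5]
        exact hp.cl_add hMf (hp.cl_add hf.2.1 (hp.cl_smul (hul.lamCl z hz) hM.le))
      have h6 := hp.mem_of_le h h4
      rwa [hp.smul_iff (by linarith)] at h6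
    have hs : ∑ m ∈ Finset.univ.erase (2 : Fin 3), (![e, e', v] : Fin 3 → V n) m = e + e' := by
      have h5 : (Finset.univ.erase (2 : Fin 3)) = {0, 1} := by decide
      rw [h5, Finset.sum_insert (by decide), Finset.sum_singleton]
      rfl
    obtain ⟨M', -, hM'⟩ := H10.fmx n C Γ hcc 3 (le_refl 3) H.maxc ![e, e', v] 2 z hpes hz (by
      rw [hs]
      exact hfz0)
    rw [hs] at hM'
    exact h1 _ hf0.1 z (hul.lamCl z hz) M' hM'
  · intro U' v' hB' hd' x hx y hy hxc hyc hxy hx' hy'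
    obtain ⟨-, -, -, -, hstrict', -, -, -, -⟩ := bf1 n C Γ hcc H.maxc U' v' hB'
    obtain ⟨-, h2', -⟩ := bxm1 bf1 H hB' hd'
    rw [← h2' _ (hstrict' x hx' y hy' hxc hyc hxy), h2 _ (hstrict x hx y hy hxc hyc hxy)]

end Pool.Agent.PCO.H35
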