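import Pool.Agent.PCO.StmtsA

/-! PCO, row HSQ (helper35) -/

set_option autoImplicit false

open Matrix Filter Topology

namespace Pool.Agent.PCO.H35

open Pool.Agent.PFS Pool.Agent.PFJ Pool.Agent.PCO

theorem hsq (bf1 : Bf1Stmt) (bf2 : Bf2Stmt) (bf3 : Bf3Stmt) : HsqStmt := by
  intro n C Γ hcc hmax U v a ψ hB ha hψ
  have hp : PCone C := hcc.toPCone
  obtain ⟨-, -, -, -, hstrict, -, -, -, -⟩ := bf1 n C Γ hcc hmax U v hB
  obtain ⟨-, hdec, -, hout, -, -, -⟩ := bf2 n C Γ hcc hmax U v hB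
  obtain ⟨-, -, -, hpos, -⟩ := bf3 n C Γ hcc hmax U v hB
  obtain ⟨haU, hacl, ha0, -⟩ := id ha
  obtain ⟨e, he, hea⟩ := hout a 0
  obtain ⟨z, hz, hza⟩ := hout a e
  obtain ⟨heU, hecl, he0, -⟩ := id he
  have hm : ∀ m : ℕ, (0 : ℝ) < (m : ℝ) + 1 := fun m => by positivity
  have hind : ∀ m : ℕ, Ind2 (((m : ℝ) + 1) • a) e := by
    intro m α β h
    rw [smul_smul] at h
    have hβ : β = 0 := by
      by_contra hβ
      apply hea (-(β⁻¹ * (α * ((m : ℝ) + 1)))) 0
      have h1 : β • e = -((α * ((m : ℝ) + 1)) • a) := by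
        rw [add_comm] at h
        exact eq_neg_of_add_eq_zero_left h
      have h2 : e = β⁻¹ • (β • e) := by rw [smul_smul, inv_mul_cancel₀ hβ, one_smul]
      rw [h2, h1, smul_neg, smul_smul, neg_smul, smul_zero, add_zero]
    rw [hβ, zero_smul, add_zero] at h
    rcases smul_eq_zero.1 h with h | h
    · rcases mul_eq_zero.1 h with h | h
      · exact ⟨h, hβ⟩
      · exact absurd h (hm m).ne'
    · exact absurd h ha0
  have hunit : ∀ m : ℕ, Unt C U (((m : ℝ) + 1) • a + e) := fun m =>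
    hstrict _ (U.smul_mem _ haU) _ heU (hp.cl_smul hacl (hm m).le) hecl (hind m)
  choose τ b hτ hb _ hf using fun m : ℕ => hdec _ (hunit m) z hz
  have hzn : ∀ κ : ℝ, ∀ m : ℕ, b m ≠ κ • a := by
    intro κ m h
    have h1 := hf m
    rw [h] at h1
    apply hza ((τ m)⁻¹ * ((m : ℝ) + 1 - κ)) ((τ m)⁻¹)
    have h2 : τ m • z = ((m : ℝ) + 1 - κ) • a + e := by
      rw [sub_smul]
      rw [eq_comm, ← sub_eq_iff_eq_add] at h1
      rw [← h1]
      abel
    have h3 : z = (τ m)⁻¹ • (τ m • z) := by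
      rw [smul_smul, inv_mul_cancel₀ (hτ m).ne', one_smul]
    rw [h3, h2, smul_add, smul_smul]
  have hbind : ∀ m, Ind2 a (b m) := by
    intro m α β h
    have hβ : β = 0 := by
      by_contra hβ
      apply hzn (-(β⁻¹ * α)) m
      have h1 : β • b m = -(α • a) := by
        rw [add_comm] at h
        exact eq_neg_of_add_eq_zero_left h
      have h2 : b m = β⁻¹ • (β • b m) := by rw [smul_smul, inv_mul_cancel₀ hβ, one_smul]
      rw [h2, h1, smul_neg, smul_smul, neg_smul]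
    rw [hβ, zero_smul, add_zero] at h
    rcases smul_eq_zero.1 h with h | h
    · exact ⟨h, hβ⟩
    · exact absurd h ha0
  have hψb : ∀ m, 0 < ψ (b m) := fun m =>
    hpos a ψ ha hψ (b m) (hb m).1 (hb m).2.1 (hbind m)
  have hψz : 0 ≤ ψ z := hψ.pos z hz.1 hz.2.1
  have hψle : ∀ m, ψ (b m) ≤ ψ e := by
    intro m
    have h1 := congrArg ψ (hf m)
    rw [map_add, map_add, map_smul, map_smul, hψ.at_, smul_zero, zero_add, smul_eq_mul] at h1
    have h2 := mul_nonneg (hτ m).le hψz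
    linarith
  have hψe : 0 < ψ e := (hψb 0).trans_le (hψle 0)
  -- the norms of `b m` tend to infinity
  have hnorm : Tendsto (fun m => ‖b m‖) atTop atTop := by
    rw [tendsto_atTop]
    intro R
    by_contra hcon
    have hfr : ∃ᶠ m in atTop, ‖b m‖ ≤ R := by
      have h1 : ∃ᶠ m in atTop, ¬ R ≤ ‖b m‖ := not_eventually.1 hcon
      exact h1.mono fun m hm => (not_le.1 hm).le
    have hne : NeBot (atTop ⊓ 𝓟 {m : ℕ | ‖b m‖ ≤ R}) := frequently_mem_iff_neBot.1 hfr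
    have hl : (atTop ⊓ 𝓟 {m : ℕ | ‖b m‖ ≤ R}) ≤ atTop := inf_le_left
    have hbd : ∀ᶠ m in (atTop ⊓ 𝓟 {m : ℕ | ‖b m‖ ≤ R}), ‖b m‖ ≤ R :=
      mem_inf_of_right (mem_principal_self _)
    have h0 : Tendsto (fun m : ℕ => 1 / ((m : ℝ) + 1)) (atTop ⊓ 𝓟 {m : ℕ | ‖b m‖ ≤ R}) (𝓝 0) :=
      tendsto_one_div_add_atTop_nhds_zero_nat.mono_left hl
    have hb0 : Tendsto (fun m : ℕ => (1 / ((m : ℝ) + 1)) • b m)
        (atTop ⊓ 𝓟 {m : ℕ | ‖b m‖ ≤ R}) (𝓝 0) := by
      rw [tendsto_zero_iff_norm_tendsto_zero]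
      have h3 : Tendsto (fun m : ℕ => (1 / ((m : ℝ) + 1)) * R)
          (atTop ⊓ 𝓟 {m : ℕ | ‖b m‖ ≤ R}) (𝓝 0) := by
        have := h0.mul_const R
        rwa [zero_mul] at this
      refine squeeze_zero' (Eventually.of_forall fun m => norm_nonneg _) ?_ h3
      filter_upwards [hbd] with m hmR
      rw [norm_smul, Real.norm_of_nonneg (by positivity)]
      exact mul_le_mul_of_nonneg_left hmR (by positivity)
    have he0' : Tendsto (fun m : ℕ => (1 / ((m : ℝ) + 1)) • e)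
        (atTop ⊓ 𝓟 {m : ℕ | ‖b m‖ ≤ R}) (𝓝 0) := by
      have := h0.smul_const e
      rwa [zero_smul] at this
    have hlim : Tendsto (fun m : ℕ => ((1 / ((m : ℝ) + 1)) * τ m) • z)
        (atTop ⊓ 𝓟 {m : ℕ | ‖b m‖ ≤ R}) (𝓝 a) := by
      have h4 : Tendsto (fun m : ℕ => a + (1 / ((m : ℝ) + 1)) • e - (1 / ((m : ℝ) + 1)) • b m)
          (atTop ⊓ 𝓟 {m : ℕ | ‖b m‖ ≤ R}) (𝓝 (a + 0 - 0)) :=
        (tendsto_const_nhds.add he0').sub hb0
      rw [add_zero, sub_zero] at h4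
      refine h4.congr fun m => ?_
      have h5 := hf m
      have h6 : (1 / ((m : ℝ) + 1)) • (((m : ℝ) + 1) • a + e) =
          (1 / ((m : ℝ) + 1)) • (τ m • z + b m) := by rw [h5]
      rw [smul_add, smul_add, smul_smul, smul_smul, one_div_mul_cancel (hm m).ne', one_smul] at h6
      rw [h6]
      abel
    have hcl : IsClosed ((Submodule.span ℝ {z} : Submodule ℝ (V n)) : Set (V n)) :=
      Submodule.closed_of_finiteDimensional _
    have hmem : a ∈ (Submodule.span ℝ {z} : Submodule ℝ (V n)) := by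
      refine hcl.mem_of_tendsto hlim (Eventually.of_forall fun m => ?_)
      exact Submodule.smul_mem _ _ (Submodule.mem_span_singleton_self z)
    obtain ⟨κ, hκ⟩ := Submodule.mem_span_singleton.1 hmem
    have hκ0 : κ ≠ 0 := by
      rintro rfl
      rw [zero_smul] at hκ
      exact ha0 hκ.symm
    apply hza κ⁻¹ 0
    rw [← hκ, smul_smul, inv_mul_cancel₀ hκ0, one_smul, zero_smul, add_zero]
  have hinv : ∀ m, 0 < (ψ (b m))⁻¹ := fun m => inv_pos.2 (hψb m)
  refine ⟨fun m => (ψ (b m))⁻¹ • b m, ?_, ?_, ?_⟩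
  · intro m
    obtain ⟨h1, h2, h3, h4⟩ := hb m
    refine ⟨U.smul_mem _ h1, hp.cl_smul h2 (hinv m).le, smul_ne_zero (hinv m).ne' h3, ?_⟩
    intro h5
    apply h4
    have h6 := (H76.unf n C hp U _ h5).1 (ψ (b m)) (hψb m)
    rwa [smul_smul, mul_inv_cancel₀ (hψb m).ne', one_smul] at h6
  · intro m
    rw [map_smul, smul_eq_mul, inv_mul_cancel₀ (hψb m).ne']
  · refine tendsto_atTop_mono (f := fun m => (ψ e)⁻¹ * ‖b m‖) (fun m => ?_)
      (hnorm.const_mul_atTop (inv_pos.2 hψe))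
    rw [norm_smul, Real.norm_of_nonneg (hinv m).le]
    exact mul_le_mul_of_nonneg_right (inv_anti₀ (hψb m) (hψle m)) (norm_nonneg _)

end Pool.Agent.PCO.H35
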